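import Pool.Agent.MP_2b113a_an.H33.LieB
import Pool.Agent.MP_2b113a_an.H89.Ind

/-!
Ergodicity of split elements on the homogeneous space, and property (T) of the lattice.
-/

namespace Pool.Agent.MP_2b113a_an.H15

open MeasureTheory Filter Topology Set Pool.Agent.MP_2b113a_an.H33
open scoped ENNReal InnerProductSpace

section LieGroup

variable {L : Type} [LieRing L] [LieAlgebra ℚ L] {V : Type} [NormedAddCommGroup V]
  [NormedSpace ℝ V] {G : Type} [Group G] [TopologicalSpace G] (𝒢 : LG L V G)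

theorem br_jj (x y : L) : 𝒢.br (𝒢.j x) (𝒢.j y) = 𝒢.j ⁅x, y⁆ := by
  rw [𝒢.br_j, 𝒢.ext_j, ad_apply]

theorem j_two (x : L) : 𝒢.j ((2 : ℚ) • x) = (2 : ℝ) • 𝒢.j x := by
  rw [𝒢.j_smul]
  norm_num

theorem E_mul_E (hF : 𝒢.Facts) {x : L} (hx : Nil x) (w : V) :
    𝒢.E (𝒢.j x) * 𝒢.E w = 𝒢.E (𝒢.ext (ex x) w) * 𝒢.E (𝒢.j x) := by
  rw [← hF.Ad_ex x hx, ← 𝒢.E_conj, inv_mul_cancel_right]

variable {H : Type} [NormedAddCommGroup H] [InnerProductSpace ℝ H] [CompleteSpace H]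
  (ρ : G →* (H ≃ₗᵢ[ℝ] H))

theorem fix_of_cfg1 (h2 : RelT2Stmt) (hF : 𝒢.Facts) (hc : ∀ η, Continuous fun g => ρ g η)
    {η : ℕ → H} (h1 : ∀ k, ‖η k‖ = 1)
    (hη : ∀ g, Tendsto (fun k => ‖ρ g (η k) - η k‖) atTop (𝓝 0)) {X Y v₀ v₁ : L}
    (h : Cfg1 X Y v₀ v₁) : ∃ v, v ≠ 0 ∧ (∀ t : ℝ, ρ (𝒢.E (t • 𝒢.j v₀)) v = v) ∧
      ∀ t : ℝ, ρ (𝒢.E (t • 𝒢.j v₁)) v = v := by
  have c10 : ⁅v₁, v₀⁆ = 0 := by rw [← lie_skew, h.c01, neg_zero]
  have x0 : ex X v₀ = v₀ := ex_apply_one h.nX h.X0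
  have x1 : ex X v₁ = v₁ + v₀ := by rw [ex_apply_two h.nX (by rw [h.X1, h.X0]), h.X1]
  have y0 : ex Y v₀ = v₀ + v₁ := by rw [ex_apply_two h.nY (by rw [h.Y0, h.Y1]), h.Y0]
  have y1 : ex Y v₁ = v₁ := ex_apply_one h.nY h.Y1
  obtain ⟨v, hv, hfix⟩ := h2 H (fun q => ρ (𝒢.E (q.1 • 𝒢.j v₀ + q.2 • 𝒢.j v₁)))
    (ρ (𝒢.E (𝒢.j X))) (ρ (𝒢.E (𝒢.j Y))) η
    (fun p q => by
      rw [← map_mul, ← 𝒢.E_add _ _ (by simp [br_jj, h.c01, c10])]
      congr 2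
      simp only [Prod.fst_add, Prod.snd_add]
      module)
    (fun v => (hc v).comp (𝒢.cont_E.comp (by fun_prop)))
    (fun q => by
      rw [← map_mul, ← map_mul, E_mul_E 𝒢 hF h.nX]
      congr 3
      simp only [U2, map_add, map_smul, 𝒢.ext_j, x0, x1]
      module)
    (fun q => by
      rw [← map_mul, ← map_mul, E_mul_E 𝒢 hF h.nY]
      congr 3
      simp only [L2, map_add, map_smul, 𝒢.ext_j, y0, y1]
      module)
    h1 (fun q => hη _) (hη _) (hη _)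
  exact ⟨v, hv, fun t => by simpa using hfix (t, 0), fun t => by simpa using hfix (0, t)⟩

theorem fix_of_cfg2 (h3 : RelT3Stmt) (hF : 𝒢.Facts) (hc : ∀ η, Continuous fun g => ρ g η)
    {η : ℕ → H} (h1 : ∀ k, ‖η k‖ = 1)
    (hη : ∀ g, Tendsto (fun k => ‖ρ g (η k) - η k‖) atTop (𝓝 0)) {X Y v₀ v₁ v₂ : L}
    (h : Cfg2 X Y v₀ v₁ v₂) : ∃ v, v ≠ 0 ∧ (∀ t : ℝ, ρ (𝒢.E (t • 𝒢.j v₀)) v = v) ∧
      ∀ t : ℝ, ρ (𝒢.E (t • 𝒢.j v₂)) v = v := by
  have c10 : ⁅v₁, v₀⁆ = 0 := by rw [← lie_skew, h.c01, neg_zero]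
  have c20 : ⁅v₂, v₀⁆ = 0 := by rw [← lie_skew, h.c02, neg_zero]
  have c21 : ⁅v₂, v₁⁆ = 0 := by rw [← lie_skew, h.c12, neg_zero]
  have x0 : ex X v₀ = v₀ := ex_apply_one h.nX h.X0
  have x1 : ex X v₁ = v₁ + (2 : ℚ) • v₀ := by
    rw [ex_apply_two h.nX (by rw [h.X1, lie_smul, h.X0, smul_zero]), h.X1]
  have x2 : ex X v₂ = v₂ + v₁ + v₀ := by
    rw [ex_apply_three h.nX (by rw [h.X2, h.X1, lie_smul, h.X0, smul_zero]), h.X2, h.X1,
      smul_smul, inv_mul_cancel₀ two_ne_zero, one_smul]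
  have y0 : ex Y v₀ = v₀ + v₁ + v₂ := by
    rw [ex_apply_three h.nY (by rw [h.Y0, h.Y1, lie_smul, h.Y2, smul_zero]), h.Y0, h.Y1,
      smul_smul, inv_mul_cancel₀ two_ne_zero, one_smul]
  have y1 : ex Y v₁ = v₁ + (2 : ℚ) • v₂ := by
    rw [ex_apply_two h.nY (by rw [h.Y1, lie_smul, h.Y2, smul_zero]), h.Y1]
  have y2 : ex Y v₂ = v₂ := ex_apply_one h.nY h.Y2
  obtain ⟨v, hv, hfix⟩ := h3 H
    (fun q => ρ (𝒢.E (q.1 • 𝒢.j v₀ + q.2.1 • 𝒢.j v₁ + q.2.2 • 𝒢.j v₂)))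
    (ρ (𝒢.E (𝒢.j X))) (ρ (𝒢.E (𝒢.j Y))) η
    (fun p q => by
      rw [← map_mul, ← 𝒢.E_add _ _ (by simp [br_jj, h.c01, h.c02, h.c12, c10, c20, c21])]
      congr 2
      simp only [Prod.fst_add, Prod.snd_add]
      module)
    (fun v => (hc v).comp (𝒢.cont_E.comp (by fun_prop)))
    (fun q => by
      rw [← map_mul, ← map_mul, E_mul_E 𝒢 hF h.nX]
      congr 3
      simp only [U3, map_add, map_smul, 𝒢.ext_j, x0, x1, x2, j_two]
      module)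
    (fun q => by
      rw [← map_mul, ← map_mul, E_mul_E 𝒢 hF h.nY]
      congr 3
      simp only [L3, map_add, map_smul, 𝒢.ext_j, y0, y1, y2, j_two]
      module)
    h1 (fun q => hη _) (hη _) (hη _)
  exact ⟨v, hv, fun t => by simpa using hfix (t, 0, 0), fun t => by simpa using hfix (0, 0, t)⟩

end LieGroup

theorem tendsto_norm_L2 {X H : Type} [MeasurableSpace X] {μ : Measure X} [IsFiniteMeasure μ]
    [NormedAddCommGroup H] [InnerProductSpace ℝ H] (f : ℕ → Lp H 2 μ) (C : ℝ)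
    (hC : ∀ k, ∀ᵐ y ∂μ, ‖f k y‖ ≤ C) (h : ∀ᵐ y ∂μ, Tendsto (fun k => ‖f k y‖) atTop (𝓝 0)) :
    Tendsto (fun k => ‖f k‖) atTop (𝓝 0) := by
  have h1 : Tendsto (fun k => ∫ y, ‖f k y‖ ^ 2 ∂μ) atTop (𝓝 (∫ _, (0 : ℝ) ∂μ)) := by
    refine tendsto_integral_of_dominated_convergence (fun _ => C ^ 2)
      (fun k => (Lp.aestronglyMeasurable (f k)).norm.pow 2) (integrable_const _) (fun k => ?_) ?_
    · filter_upwards [hC k] with y hy
      rw [Real.norm_of_nonneg (by positivity)]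
      exact pow_le_pow_left₀ (norm_nonneg _) hy 2
    · filter_upwards [h] with y hy
      simpa using hy.pow 2
  have h2 : ∀ k, √(∫ y, ‖f k y‖ ^ 2 ∂μ) = ‖f k‖ := fun k => by
    rw [norm_eq_sqrt_real_inner (f k), L2.inner_def]
    simp only [real_inner_self_eq_norm_sq]
  simpa [h2] using h1.sqrt

theorem abs_avg_le {f : ℕ → ℝ} (hf : ∀ k, |f k| ≤ 1) (T : ℕ) :
    |(T : ℝ)⁻¹ * ∑ k ∈ Finset.range T, f k| ≤ 1 := by
  rw [abs_mul, abs_of_nonneg (by positivity)]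
  refine (mul_le_mul_of_nonneg_left ((Finset.abs_sum_le_sum_abs _ _).trans
    (Finset.sum_le_sum fun k _ => hf k)) (by positivity)).trans ?_
  simpa using inv_mul_le_one

/-- The measure on the fundamental domain. -/
noncomputable abbrev dm {G : Type} [Group G] [MeasurableSpace G] {m : Measure G} {Γ : Subgroup G}
    (Λ : Lat m Γ) : Measure G := m.restrict {y | Λ.c y = 1}

section Lattice

variable {G : Type} [Group G] [TopologicalSpace G] [IsTopologicalGroup G] [T2Space G]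
  [LocallyCompactSpace G] [SecondCountableTopology G] [MeasurableSpace G] [BorelSpace G]
  {m : Measure G} [m.IsHaarMeasure] [m.IsMulRightInvariant] {Γ : Subgroup G} [Countable Γ]
  (Λ : Lat m Γ)

theorem dom_pos : 0 < m.real {y | Λ.c y = 1} :=
  ENNReal.toReal_pos ((H89.fund_one Λ).measure_ne_zero (NeZero.ne m)) Λ.fin

theorem erg_of (a : G)
    (ρ : G →* (Lp ℝ 2 (dm Λ) ≃ₗᵢ[ℝ] Lp ℝ 2 (dm Λ)))
    (hρ : ∀ g η, ∀ᵐ y ∂dm Λ, ρ g η y = η (H89.pr Λ (y * g)))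
    (hfix : ∀ η, ρ a η = η → ∃ v, ∀ᵐ y ∂dm Λ, η y = v) : Erg Λ a := by
  intro χ hχ hb hinv ψ hψ g
  have hfin : IsFiniteMeasure (dm Λ) := isFiniteMeasure_restrict.2 Λ.fin
  have hmem : MemLp χ 2 (dm Λ) :=
    MemLp.of_bound hχ.aestronglyMeasurable 1 (.of_forall fun y => by simpa using hb y)
  have hpr : ∀ y, χ (H89.pr Λ y) = χ y := fun y => hinv _ _
  have h1 : ∀ h : G, ∀ᵐ y ∂dm Λ, ρ h (hmem.toLp χ) y = χ (y * h) := fun h => by
    filter_upwards [hρ h (hmem.toLp χ),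
      (H89.mp Λ h).quasiMeasurePreserving.ae hmem.coeFn_toLp] with y h1 h2
    rw [h1, h2, hpr]
  have hint : ∀ h : G, ∫ y, χ (y * h) ∂dm Λ = ∫ y, χ y ∂dm Λ := fun h => by
    have e := integral_map (μ := dm Λ) (H89.mp Λ h).measurable.aemeasurable
      hχ.aestronglyMeasurable
    rw [(H89.mp Λ h).map_eq] at e
    simpa only [hpr] using e.symm
  set U : Lp ℝ 2 (dm Λ) →L[ℝ] Lp ℝ 2 (dm Λ) := (ρ a).toLinearIsometry.toContinuousLinearMap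
    with hU
  set A : ℕ → G → ℝ := fun T y => (T : ℝ)⁻¹ * ∑ k ∈ Finset.range T, χ (y * a ^ k * g) with hA
  have hAm : ∀ T, Measurable (A T) := fun T =>
    (Finset.measurable_sum _ fun k _ => hχ.comp (by fun_prop)).const_mul _
  have hAb : ∀ T y, |A T y| ≤ 1 := fun T y => abs_avg_le (fun k => hb _) T
  have hit : ∀ k : ℕ, U^[k] (ρ g (hmem.toLp χ)) = ρ (a ^ k * g) (hmem.toLp χ) := fun k => by
    induction k with
    | zero => simp
    | succ k ih =>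
      rw [Function.iterate_succ_apply', ih, pow_succ', mul_assoc, map_mul ρ a]
      rfl
  have hB : ∀ T, (birkhoffAverage ℝ U id T (ρ g (hmem.toLp χ)) : Lp ℝ 2 (dm Λ)) =ᵐ[dm Λ]
      A T := fun T => by
    simp only [birkhoffAverage, birkhoffSum, id, hit]
    filter_upwards [Lp.coeFn_smul (T : ℝ)⁻¹ (∑ k ∈ Finset.range T, ρ (a ^ k * g) (hmem.toLp χ)),
      Lp.coeFn_finsetSum (Finset.range T) fun k => ρ (a ^ k * g) (hmem.toLp χ),
      ae_all_iff.2 fun k : ℕ => h1 (a ^ k * g)] with y e1 e2 e3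
    rw [e1, Pi.smul_apply, e2, smul_eq_mul]
    simp only [hA, Finset.sum_apply, e3, mul_assoc]
  obtain ⟨ξ, hξ, hlim⟩ : ∃ ξ, ρ a ξ = ξ ∧
      Tendsto (birkhoffAverage ℝ U id · (ρ g (hmem.toLp χ))) atTop (𝓝 ξ) := by
    refine ⟨_, ?_, U.tendsto_birkhoffAverage_orthogonalProjection
      (ρ a).toLinearIsometry.norm_toContinuousLinearMap_le (ρ g (hmem.toLp χ))⟩
    exact (Submodule.orthogonalProjectionOnto _ (ρ g (hmem.toLp χ)) :
      (U : Lp ℝ 2 (dm Λ) →ₗ[ℝ] Lp ℝ 2 (dm Λ)).eqLocus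
        (1 : Lp ℝ 2 (dm Λ) →L[ℝ] Lp ℝ 2 (dm Λ))).2
  obtain ⟨v, hv⟩ := hfix ξ hξ
  refine tendsto_of_subseq_tendsto fun ns hns => ?_
  obtain ⟨ms, hms, hae⟩ := (tendstoInMeasure_of_tendsto_Lp (hlim.comp hns)).exists_seq_tendsto_ae
  have hD : ∀ᵐ y ∂dm Λ, Tendsto (fun i => A (ns (ms i)) y) atTop (𝓝 v) := by
    filter_upwards [hae, hv, ae_all_iff.2 hB] with y e1 e2 e3
    rw [e2] at e1
    simpa only [Function.comp_apply, e3] using e1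
  have hval : v = (m.real {y | Λ.c y = 1})⁻¹ * ∫ z, χ z ∂dm Λ := by
    have e1 : Tendsto (fun i => ∫ y, A (ns (ms i)) y ∂dm Λ) atTop (𝓝 (∫ _, v ∂dm Λ)) :=
      tendsto_integral_of_dominated_convergence (fun _ => 1)
        (fun i => (hAm _).aestronglyMeasurable) (integrable_const _)
        (fun i => .of_forall fun y => hAb _ y) hD
    have e2 : ∀ᶠ i in atTop, ∫ z, χ z ∂dm Λ = ∫ y, A (ns (ms i)) y ∂dm Λ := by
      filter_upwards [(hns.comp hms.tendsto_atTop).eventually_ne_atTop 0] with i hi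
      have hi' : ((ns (ms i) : ℕ) : ℝ) ≠ 0 := by exact_mod_cast hi
      simp only [hA]
      rw [integral_const_mul, integral_finsetSum]
      · simp only [mul_assoc, hint, Finset.sum_const, Finset.card_range, nsmul_eq_mul]
        rw [inv_mul_cancel_left₀ hi']
      · intro k _
        exact Integrable.of_bound (hχ.comp (by fun_prop)).aestronglyMeasurable 1
          (.of_forall fun y => hb _)
    have e3 := tendsto_nhds_unique (tendsto_const_nhds.congr' e2) e1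
    rw [e3, integral_const, smul_eq_mul, measureReal_restrict_apply_univ,
      inv_mul_cancel_left₀ (dom_pos Λ).ne']
  have hG : ∀ᵐ y ∂m, Tendsto (fun i => A (ns (ms i)) y) atTop (𝓝 v) := by
    rw [ae_iff]
    refine (H89.fund_one Λ).measure_zero_of_invariant _ (fun γ => ?_) ?_
    · ext y
      rw [mem_smul_set_iff_inv_smul_mem]
      have : ∀ T, A T (γ⁻¹ • y) = A T y := fun T => by
        simp only [hA, Subgroup.smul_def, smul_eq_mul, mul_assoc, hinv]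
      simp only [mem_ofPred_eq, this]
    · rw [ae_iff, Measure.restrict_apply' (Λ.meas 1)] at hD
      exact hD
  rw [← hval]
  refine ⟨ms, ?_⟩
  have := tendsto_integral_of_dominated_convergence (μ := m)
    (F := fun i y => |ψ y| * |A (ns (ms i)) y - v|) (f := fun _ => 0)
    (fun y => |ψ y| * (1 + |v|))
    (fun i => hψ.abs.aestronglyMeasurable.mul
      ((hAm _).sub_const v).abs.aestronglyMeasurable) (hψ.abs.mul_const _)
    (fun i => .of_forall fun y => by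
      rw [Real.norm_of_nonneg (by positivity)]
      exact mul_le_mul_of_nonneg_left ((abs_sub _ _).trans (by linarith [hAb (ns (ms i)) y]))
        (abs_nonneg _))
    (by
      filter_upwards [hG] with y hy
      simpa using ((hy.sub_const v).abs).const_mul |ψ y|)
  simpa using this

theorem almost_inv {H : Type} [NormedAddCommGroup H] [InnerProductSpace ℝ H]
    (π : Γ →* (H ≃ₗᵢ[ℝ] H)) (ζ : ℕ → H) (h1 : ∀ k, ‖ζ k‖ = 1)
    (hζ : ∀ g, Tendsto (fun k => ‖π g (ζ k) - ζ k‖) atTop (𝓝 0))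
    (ρ : G →* (Lp H 2 (dm Λ) ≃ₗᵢ[ℝ] Lp H 2 (dm Λ)))
    (hρ : ∀ g η, ∀ᵐ y ∂dm Λ,
      ρ g η y = π (Λ.c (y * g)) (η (H89.pr Λ (y * g)))) :
    ∃ η : ℕ → Lp H 2 (dm Λ), (∀ k, ‖η k‖ = 1) ∧
      ∀ g, Tendsto (fun k => ‖ρ g (η k) - η k‖) atTop (𝓝 0) := by
  have hfin : IsFiniteMeasure (dm Λ) := isFiniteMeasure_restrict.2 Λ.fin
  have hκ : 0 < (dm Λ).real univ ^ (1 / (2 : ℝ≥0∞).toReal) := by
    rw [measureReal_restrict_apply_univ]
    exact Real.rpow_pos_of_pos (dom_pos Λ) _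
  set κ := (dm Λ).real univ ^ (1 / (2 : ℝ≥0∞).toReal) with hκ'
  refine ⟨fun k => κ⁻¹ • Lp.const 2 (dm Λ) (ζ k), fun k => ?_, fun g => ?_⟩
  · rw [norm_smul, Lp.norm_const' _ _ _ (by simp) (by simp), h1, one_mul, norm_inv,
      Real.norm_of_nonneg hκ.le, inv_mul_cancel₀ hκ.ne']
  have hae : ∀ k, ∀ᵐ y ∂dm Λ,
      (ρ g (Lp.const 2 (dm Λ) (ζ k)) - Lp.const 2 (dm Λ) (ζ k) : Lp H 2 (dm Λ)) y =
      π (Λ.c (y * g)) (ζ k) - ζ k := fun k => by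
    filter_upwards [Lp.coeFn_sub (ρ g (Lp.const 2 (dm Λ) (ζ k))) (Lp.const 2 (dm Λ) (ζ k)),
      hρ g (Lp.const 2 (dm Λ) (ζ k)), Lp.coeFn_const 2 (dm Λ) (ζ k),
      (H89.mp Λ g).quasiMeasurePreserving.ae (Lp.coeFn_const 2 (dm Λ) (ζ k))] with y e1 e2 e3 e4
    rw [e1, Pi.sub_apply, e2, e3, e4]
    rfl
  have := tendsto_norm_L2 (fun k => ρ g (Lp.const 2 (dm Λ) (ζ k)) - Lp.const 2 (dm Λ) (ζ k)) 2
    (fun k => (hae k).mono fun y hy => by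
      rw [hy]
      refine (norm_sub_le _ _).trans ?_
      rw [LinearIsometryEquiv.norm_map, h1]
      norm_num)
    ((ae_all_iff.2 hae).mono fun y hy => by simpa only [hy] using hζ _)
  simp only [map_smul, ← smul_sub, norm_smul]
  simpa using this.const_mul ‖κ⁻¹‖

end Lattice

theorem ergT (hI : IndStmt) (hM : MautnerStmt) (h2 : RelT2Stmt) (h3 : RelT3Stmt) :
    ErgTStmt := by
  intro L _ _ _ _ V _ _ _ G _ _ _ _ _ _ _ _ m _ _ Γ _ Λ 𝒢 hF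
  refine ⟨fun s hs h0 => ?_, fun v₀ hv₀ H _ _ _ π ζ h1 hζ => ?_⟩
  · obtain ⟨ρ, hc, hρ, hfix⟩ := hI G m Γ Λ ℝ 1
    refine erg_of Λ _ ρ hρ fun η hη => ?_
    obtain ⟨v, -, hv⟩ := hfix η ((hM L V G 𝒢 hF _ ρ hc η).1 s hs h0 hη)
    exact ⟨v, hv⟩
  · obtain ⟨ρ, hc, hρ, hfix⟩ := hI G m Γ Λ H π
    obtain ⟨η, hη1, hη⟩ := almost_inv Λ π ζ h1 hζ ρ hρ
    obtain ⟨X, Y, hd, hne, hZ, h⟩ := hv₀
    have key : ∃ ξ, ξ ≠ 0 ∧ ∀ g, ρ g ξ = ξ := by
      rcases h with ⟨v₁, h, hZ'⟩ | ⟨v₁, v₂, h, hZ'⟩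
      · obtain ⟨ξ, e0, e1, e2⟩ := fix_of_cfg1 𝒢 ρ h2 hF hc hη1 hη h
        exact ⟨ξ, e0, (hM L V G 𝒢 hF _ ρ hc ξ).2 X Y v₀ v₁ hd hne hZ h.X0 hZ' h.Y1 e1 e2⟩
      · obtain ⟨ξ, e0, e1, e2⟩ := fix_of_cfg2 𝒢 ρ h3 hF hc hη1 hη h
        exact ⟨ξ, e0, (hM L V G 𝒢 hF _ ρ hc ξ).2 X Y v₀ v₂ hd hne hZ h.X0 hZ' h.Y2 e1 e2⟩
    obtain ⟨ξ, e0, e1⟩ := key
    obtain ⟨v, hv, hae⟩ := hfix ξ e1
    refine ⟨v, fun h0 => e0 ?_, hv⟩
    rw [h0] at hae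
    exact Lp.eq_zero_iff_ae_eq_zero.2 hae

end Pool.Agent.MP_2b113a_an.H15
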