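import Mathlib
import Pool.Agent.MP_2b113a_an.H83.Main
import Pool.Agent.MP_2b113a_an.H33.Defs

/-!
The plane theorem for a lattice normalised by an upper and a lower shear.
-/

namespace Pool.Agent.MP_2b113a_an.H15

open MeasureTheory Set Filter
open scoped ENNReal NNReal
open Pool.Agent.MP_2b113a_an.H83 Pool.Agent.MP_2b113a_an.H46 Pool.Agent.MP_2b113a_an.H33

/-- The product of the upper and the lower shear on the square of any abelian group. -/
def shA (k : ℤ) (A : Type) [AddCommGroup A] : AddMonoid.End (A × A) where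
  toFun v := ((1 + k ^ 2) • v.1 + k • v.2, k • v.1 + v.2)
  map_zero' := by simp
  map_add' v w := by
    refine Prod.ext ?_ ?_
    · simp only [Prod.fst_add, Prod.snd_add, smul_add]; abel
    · simp only [Prod.fst_add, Prod.snd_add, smul_add]; abel

theorem shA_apply (k : ℤ) (A : Type) [AddCommGroup A] (v : A × A) :
    shA k A v = ((1 + k ^ 2) • v.1 + k • v.2, k • v.1 + v.2) := rfl

theorem shA_pow_apply (k : ℤ) (A : Type) [AddCommGroup A] (n : ℕ) (v : A × A) :
    (shA k A ^ n) v = (shA k A)^[n] v := by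
  rw [AddMonoid.End.coe_pow]

theorem shA_eq (k : ℤ) (v : ℤ × ℤ) : U2 k (H33.L2 k v) = shA k ℤ v := by
  rw [shA_apply]
  simp only [U2, H33.L2, smul_eq_mul]
  refine Prod.ext ?_ ?_
  · simp only
    ring
  · simp only
    ring

theorem shA_surj (k : ℤ) (A : Type) [AddCommGroup A] : Function.Surjective (shA k A) := by
  intro v
  refine ⟨(v.1 - k • v.2, (1 + k ^ 2) • v.2 - k • v.1), ?_⟩
  rw [shA_apply]
  refine Prod.ext ?_ ?_
  · simp only
    module
  · simp only
    module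

theorem shA_pow_surj (k : ℤ) (A : Type) [AddCommGroup A] (n : ℕ) :
    Function.Surjective (shA k A ^ n) := by
  rw [AddMonoid.End.coe_pow]
  exact (shA_surj k A).iterate n

theorem pr_shA (k : ℤ) (n : ℕ) (q : ℝ × ℝ) :
    pr ((shA k ℝ ^ n) q) = (shA k UnitAddCircle ^ n) (pr q) := by
  rw [shA_pow_apply, shA_pow_apply]
  exact Function.Semiconj.iterate_right (f := pr) (fun _ => rfl) n q

theorem io_shA (k : ℤ) (n : ℕ) (v : ℤ × ℤ) :
    io ((shA k ℤ ^ n) v) = (shA k ℝ ^ n) (io v) := by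
  rw [shA_pow_apply, shA_pow_apply]
  refine Function.Semiconj.iterate_right (f := io) (fun v => ?_) n v
  simp [io, shA_apply]

theorem cont_shA (k : ℤ) (A : Type) [AddCommGroup A] [TopologicalSpace A]
    [IsTopologicalAddGroup A] (n : ℕ) : Continuous (shA k A ^ n) := by
  rw [AddMonoid.End.coe_pow]
  refine Continuous.iterate ?_ n
  change Continuous fun v : A × A => ((1 + k ^ 2) • v.1 + k • v.2, k • v.1 + v.2)
  fun_prop

theorem mp_shA (k : ℤ) (n : ℕ) :
    MeasurePreserving (shA k UnitAddCircle ^ n) (volume : Measure T2) volume :=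
  AddMonoidHom.measurePreserving (f := (shA k UnitAddCircle ^ n : AddMonoid.End T2))
    (cont_shA k _ n) (shA_pow_surj k _ n) rfl

theorem shA_rot {e m : ℤ} (he : e * e = 1) {r : ℝ} (hr : r ^ 2 = m * r + 1) (N : ℝ) (n : ℕ)
    (q : ℝ × ℝ) :
    (shA (e * m) ℝ ^ n) (rot (r / N) (e / N) q) =
      rot (r / N) (e / N) ((r ^ 2) ^ n * q.1, ((r ^ 2) ^ n)⁻¹ * q.2) := by
  have he' : (e : ℝ) * e = 1 := by exact_mod_cast he
  have hi : (r ^ 2)⁻¹ = (r - m) ^ 2 := by
    refine inv_eq_of_mul_eq_one_right ?_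
    linear_combination (r ^ 2 - m * r + 1) * hr
  induction n generalizing q with
  | zero => simp
  | succ n ih =>
    have h1 : shA (e * m) ℝ (rot (r / N) (e / N) q) =
        rot (r / N) (e / N) (r ^ 2 * q.1, (r ^ 2)⁻¹ * q.2) := by
      rw [hi, shA_apply]
      simp only [rot, zsmul_eq_mul]
      push_cast
      refine Prod.ext ?_ ?_
      · simp only
        linear_combination ((m ^ 2 * r + m) * q.1 / N - e * m ^ 2 * q.2 / N) * he' -
          (q.1 * (r + m) / N) * hr + (e * q.2 / N) * hr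
      · simp only
        linear_combination (-m * q.2 / N) * he' - (e * q.1 / N) * hr - (q.2 * (r - m) / N) * hr
    rw [pow_succ, AddMonoid.End.coe_mul, Function.comp_apply, h1, ih]
    simp only [pow_succ, mul_inv, mul_assoc]

variable {G : Type} [Group G] {X : Type} [MeasurableSpace X] [MulAction G X]

theorem fl_sh (k : ℤ) (n : ℕ) (θ : T2) (q : ℝ × ℝ) :
    fl ((shA k ℝ ^ n) (sg (θ + pr q))) + (shA k ℤ ^ n) (fl (sg θ + q)) =
      fl (sg ((shA k UnitAddCircle ^ n) θ) + (shA k ℝ ^ n) q) + fl ((shA k ℝ ^ n) (sg θ)) := by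
  have h1 : sg ((shA k UnitAddCircle ^ n) θ) =
      (shA k ℝ ^ n) (sg θ) - io (fl ((shA k ℝ ^ n) (sg θ))) := by
    rw [← sg_pr, pr_shA, pr_sg]
  rw [h1, sg_add_pr, map_sub, ← io_shA, fl_sub_io, sub_add_cancel, map_add,
    sub_add_eq_add_sub, fl_sub_io, sub_add_cancel]

theorem grp_sh {α : ℤ × ℤ → G} (hα : ∀ v w, α (v + w) = α v * α w) {k : ℤ} {n : ℕ} {t : G}
    (ht : ∀ v, t * α v = α ((shA k ℤ ^ n) v) * t) (θ : T2) (q : ℝ × ℝ) :
    α (fl ((shA k ℝ ^ n) (sg (θ + pr q)))) * t * α (fl (sg θ + q)) =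
      α (fl (sg ((shA k UnitAddCircle ^ n) θ) + (shA k ℝ ^ n) q)) *
        (α (fl ((shA k ℝ ^ n) (sg θ))) * t) := by
  rw [mul_assoc, ht, ← mul_assoc, ← mul_assoc, ← hα, ← hα, fl_sh]

theorem exists_bnd {m : Measure X} (c : Coc G m) (α : ℤ × ℤ → G) (k : ℤ) (n : ℕ) (t : G) :
    ∃ C : ℝ≥0, ∀ θ : T2, c.C (α (fl ((shA k ℝ ^ n) (sg θ))) * t) ≤ C ∧
      c.C (α (fl ((shA k ℝ ^ n) (sg θ))) * t)⁻¹ ≤ C := by
  obtain ⟨C, hC⟩ := ((finite_fl _ (cont_shA k ℝ n)).image
    fun v => max (c.C (α v * t)) (c.C (α v * t)⁻¹)).bddAbove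
  exact ⟨C, fun θ => max_le_iff.1 (hC ⟨_, ⟨θ, rfl⟩, rfl⟩)⟩

/-- The symmetry of the suspension flow given by a normalising element. -/
noncomputable def sy {m : Measure X} [IsProbabilityMeasure m] (h : EC G m) (c : Coc G m)
    (α : ℤ × ℤ → G) (hα : ∀ v w, α (v + w) = α v * α w) (k : ℤ) (n : ℕ) (t : G)
    (ht : ∀ v, t * α v = α ((shA k ℤ ^ n) v) * t) :
    H83.Sym (flow h c α hα) (fun q => (shA k ℝ ^ n) q) where
  S ω := ((α (fl ((shA k ℝ ^ n) (sg ω.2))) * t) • ω.1, (shA k UnitAddCircle ^ n) ω.2)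
  ρ ω := c.w (α (fl ((shA k ℝ ^ n) (sg ω.2))) * t) ω.1
  C := (exists_bnd c α k n t).choose
  meas_S := (meas_sel (fun v x => (α v * t) • x) (fun _ => h.meas _)
      (meas_fl.comp ((cont_shA k ℝ n).measurable.comp (meas_sg.comp measurable_snd)))
      measurable_fst).prodMk ((mp_shA k n).measurable.comp measurable_snd)
  meas_ρ := meas_sel (fun v x => c.w (α v * t) x) (fun _ => c.meas _)
      (meas_fl.comp ((cont_shA k ℝ n).measurable.comp (meas_sg.comp measurable_snd)))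
      measurable_fst
  ρ_le ω := (c.le _ _).trans (by exact_mod_cast ((exists_bnd c α k n t).choose_spec ω.2).1)
  le_ρ ω := (c.one_le _ ω.1).trans (mul_le_mul_left
    (by exact_mod_cast ((exists_bnd c α k n t).choose_spec ω.2).2) _)
  comm q ω := by
    refine Prod.ext ?_ ?_
    · simp only [flow, ← mul_smul, grp_sh hα ht]
    · simp only [flow, map_add, pr_shA]
  cocy q ω := by
    simp only [flow]
    rw [mul_comm, ← c.mul, ← c.mul, grp_sh hα ht]
  inv φ hφ := skew_inv h c (fun v => α v * t)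
    (meas_fl.comp ((cont_shA k ℝ n).measurable.comp meas_sg)) (mp_shA k n) φ hφ

theorem pow_nrm {α : ℤ × ℤ → G} {k : ℤ} {t : G}
    (ht : ∀ v, t * α v = α (shA k ℤ v) * t) (j : ℕ) (v : ℤ × ℤ) :
    t ^ j * α v = α ((shA k ℤ ^ j) v) * t ^ j := by
  induction j generalizing v with
  | zero => simp
  | succ j ih =>
    rw [pow_succ, mul_assoc, ht, ← mul_assoc, ih, mul_assoc, pow_succ (shA k ℤ),
      AddMonoid.End.coe_mul, Function.comp_apply]

theorem shSeq {m : Measure X} [IsProbabilityMeasure m] (h : EC G m) (c : Coc G m)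
    (α : ℤ × ℤ → G) (hα : ∀ v w, α (v + w) = α v * α w) {e a : ℤ} (he : e * e = 1) {r : ℝ}
    (hr : r ^ 2 = a * r + 1) (N : ℝ) (t : G) (ht : ∀ v, t * α v = α (shA (e * a) ℤ v) * t) :
    HypSeq (flow h c α hα) (r ^ 2) (r / N) (e / N) := by
  refine ⟨fun j q => (shA (e * a) ℝ ^ j) q,
    fun j => sy h c α hα (e * a) j (t ^ j) (pow_nrm ht j), fun j q => ?_, ?_⟩
  · simp only
    rw [shA_rot he hr]
  intro Z hZ hinv h0
  set Y : Set X := {x | (x, (0 : T2)) ∈ Z} with hY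
  have hYm : MeasurableSet Y := measurable_prodMk_right hZ
  have hZY : ∀ ω : X × T2, ω ∈ Z ↔ ω.1 ∈ Y := by
    intro ω
    rw [← hinv (-sg ω.2) ω]
    simp [flow, fl_zero, alpha_zero hα, pr_neg, pr_sg, hY]
  have hYα : ∀ v x, α v • x ∈ Y ↔ x ∈ Y := by
    intro v x
    have := hinv (io v) (x, 0)
    simpa [flow, fl_sg_add_io, pr_io, hY] using this
  have hY0 : m Y ≠ 0 := by
    intro hY0
    apply h0
    have : Z = Y ×ˢ univ := by
      ext ω
      simp [hZY]
    rw [this, Measure.prod_prod, hY0, zero_mul]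
  rw [← tsum_image_eq_top h t hYm hY0]
  refine tsum_congr fun j => ?_
  set Y' : Set X := (fun x : X => (t ^ j)⁻¹ • x) ⁻¹' Y with hY'
  have hY'm : MeasurableSet Y' := h.meas _ hYm
  have key := (sy h c α hα (e * a) j (t ^ j) (pow_nrm ht j)).inv
    ((Y' ×ˢ (univ : Set T2)).indicator 1) (measurable_one.indicator (hY'm.prod .univ))
  rw [lintegral_indicator_one (hY'm.prod .univ), Measure.prod_prod, measure_univ, mul_one] at key
  rw [← key, ← lintegral_indicator hZ]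
  refine lintegral_congr fun ω => ?_
  have hmem : (sy h c α hα (e * a) j (t ^ j) (pow_nrm ht j)).S ω ∈ Y' ×ˢ (univ : Set T2) ↔
      ω ∈ Z := by
    obtain ⟨v, hv⟩ := shA_pow_surj (e * a) ℤ j (fl ((shA (e * a) ℝ ^ j) (sg ω.2)))
    simp only [sy, mem_prod, mem_univ, and_true, hY', mem_preimage]
    rw [← hv, ← pow_nrm ht j, mul_smul, inv_smul_smul, hYα, hZY]
  by_cases hω : ω ∈ Z
  · rw [indicator_of_mem hω, indicator_of_mem (hmem.2 hω), Pi.one_apply, one_mul]
  · rw [indicator_of_notMem hω, indicator_of_notMem (fun h' => hω (hmem.1 h')), zero_mul]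

theorem inv_nrm {α : ℤ × ℤ → G} {x : G} {f f' : ℤ × ℤ → ℤ × ℤ} (hf : ∀ v, f (f' v) = v)
    (hx : ∀ v, x * α v = α (f v) * x) (v : ℤ × ℤ) : x⁻¹ * α v = α (f' v) * x⁻¹ := by
  have := hx (f' v)
  rw [hf] at this
  rw [inv_mul_eq_iff_eq_mul, ← mul_assoc, this, mul_inv_cancel_right]

theorem mul_nrm {α : ℤ × ℤ → G} {x y : G} {k : ℤ} (hx : ∀ v, x * α v = α (U2 k v) * x)
    (hy : ∀ v, y * α v = α (H33.L2 k v) * y) (v : ℤ × ℤ) :
    x * y * α v = α (shA k ℤ v) * (x * y) := by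
  rw [mul_assoc, hy, ← mul_assoc, hx, shA_eq, mul_assoc]

theorem exists_root {a : ℝ} (ha : 1 ≤ a) : ∃ r : ℝ, 1 < r ∧ r ^ 2 = a * r + 1 := by
  have h1 : √(a ^ 2 + 4) ^ 2 = a ^ 2 + 4 := Real.sq_sqrt (by positivity)
  have h2 : 1 < √(a ^ 2 + 4) := Real.lt_sqrt_of_sq_lt (by nlinarith)
  refine ⟨(a + √(a ^ 2 + 4)) / 2, by linarith, ?_⟩
  linear_combination (1 / 4) * h1

theorem plane2 : Plane2Stmt := by
  intro G _ _ X _ _ μ _ hμ α x y a ha hα hx hy
  obtain ⟨m, hm, h1, h2, hC⟩ := exists_dominated hμ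
  have h : EC G m := EC.of_equiv hμ h1 h2
  obtain ⟨c⟩ := exists_coc h hC
  have ha' : (1 : ℝ) ≤ a := by exact_mod_cast ha
  obtain ⟨r, hr1, hr⟩ := exists_root ha'
  have hn : 0 < √(r ^ 2 + 1) := Real.sqrt_pos.2 (by positivity)
  have hn2 : √(r ^ 2 + 1) ^ 2 = r ^ 2 + 1 := Real.sq_sqrt (by positivity)
  set N := √(r ^ 2 + 1) with hN
  have ht₁ : ∀ v, x * y * α v = α (shA (1 * a) ℤ v) * (x * y) := by
    rw [one_mul]
    exact mul_nrm hx hy
  have ht₂ : ∀ v, x⁻¹ * y⁻¹ * α v = α (shA (-1 * a) ℤ v) * (x⁻¹ * y⁻¹) := by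
    rw [neg_one_mul]
    refine mul_nrm (inv_nrm (fun v => ?_) hx) (inv_nrm (fun v => ?_) hy)
    · simp [U2]
    · simp [H33.L2]
  obtain ⟨ν, hν, h3, h4, h5⟩ := core (X × T2) (m.prod volume) (flow h c α hα) (r ^ 2)
    (r / N) ((1 : ℤ) / N) (r / N) ((-1 : ℤ) / N)
    (by nlinarith)
    (by push_cast; field_simp; linarith) (by push_cast; field_simp; linarith)
    (by
      have : r / N * (r / N) + ((1 : ℤ) : ℝ) / N * (((-1 : ℤ) : ℝ) / N) = (r ^ 2 - 1) / N ^ 2 := by
        push_cast; field_simp; ring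
      rw [this]
      have : 0 < r ^ 2 - 1 := by nlinarith
      positivity)
    (by
      have : r / N * (((-1 : ℤ) : ℝ) / N) - ((1 : ℤ) : ℝ) / N * (r / N) =
          -(2 * r / N ^ 2) := by
        push_cast; field_simp; ring
      rw [this, neg_ne_zero]
      positivity)
    (shSeq h c α hα (by norm_num) hr N _ ht₁) (shSeq h c α hα (by norm_num) hr N _ ht₂)
    (lintegral_W h c α hα)
  have hfst : (m.prod (volume : Measure T2)).map Prod.fst = m := by simp
  refine ⟨ν.map Prod.fst, inferInstance, ?_, ?_, fun v => ?_⟩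
  · exact (hfst ▸ h3.map measurable_fst).trans h1
  · exact h2.trans (hfst ▸ h4.map measurable_fst)
  · have hτ : Measurable ((flow h c α hα).τ (io v)) :=
      (flow h c α hα).meas_τ.comp measurable_prodMk_left
    conv_rhs => rw [← h5 (io v)]
    rw [Measure.map_map (h.meas _) measurable_fst, Measure.map_map measurable_fst hτ]
    congr 1
    funext ω
    simp [flow, fl_sg_add_io]

end Pool.Agent.MP_2b113a_an.H15
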