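import Mathlib
import Pool.Agent.MP_2b113a_an.H46.Coc
import Pool.Agent.MP_2b113a_an.H46.Torus
import Pool.Agent.MP_2b113a_an.C3.Iface

/-!
Suspension of the action of a lattice of rank three to a flow of three-space.
-/

namespace Pool.Agent.MP_2b113a_an.H15.S3

open MeasureTheory Set Filter
open scoped ENNReal NNReal
open Pool.Agent.MP_2b113a_an.C3
open Pool.Agent.MP_2b113a_an.H83 (EC)
open Pool.Agent.MP_2b113a_an.H33 (U3 L3 Space3Stmt)
open Pool.Agent.MP_2b113a_an.H46 (sg1 sg1_coe coe_sg1 sg1_mem meas_sg1 Coc exists_dominated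
  exists_coc tsum_image_eq_top)

/-- The three-torus. -/
abbrev K3 : Type := UnitAddCircle × UnitAddCircle × UnitAddCircle

/-- The lattice. -/
abbrev Z3 : Type := ℤ × ℤ × ℤ

/-- The section of the torus in the unit cube. -/
noncomputable def sg (θ : K3) : T3 := (sg1 θ.1, sg1 θ.2.1, sg1 θ.2.2)

/-- The projection on the torus. -/
def pr (q : T3) : K3 := ((q.1 : UnitAddCircle), (q.2.1 : UnitAddCircle), (q.2.2 : UnitAddCircle))

/-- The integer part. -/
noncomputable def fl (q : T3) : Z3 := (⌊q.1⌋, ⌊q.2.1⌋, ⌊q.2.2⌋)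

/-- The inclusion of the lattice. -/
def io (v : Z3) : T3 := ((v.1 : ℝ), (v.2.1 : ℝ), (v.2.2 : ℝ))

theorem meas_sg : Measurable sg :=
  (meas_sg1.comp measurable_fst).prodMk
    ((meas_sg1.comp measurable_snd.fst).prodMk (meas_sg1.comp measurable_snd.snd))

theorem meas_pr : Measurable pr :=
  (AddCircle.measurable_mk'.comp measurable_fst).prodMk
    ((AddCircle.measurable_mk'.comp measurable_snd.fst).prodMk
      (AddCircle.measurable_mk'.comp measurable_snd.snd))

theorem meas_fl : Measurable fl :=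
  (Int.measurable_floor.comp measurable_fst).prodMk
    ((Int.measurable_floor.comp measurable_snd.fst).prodMk
      (Int.measurable_floor.comp measurable_snd.snd))

theorem pr_sg (θ : K3) : pr (sg θ) = θ := Prod.ext (coe_sg1 _) (Prod.ext (coe_sg1 _) (coe_sg1 _))

theorem sg_pr (q : T3) : sg (pr q) = q - io (fl q) :=
  Prod.ext (sg1_coe _) (Prod.ext (sg1_coe _) (sg1_coe _))

theorem pr_add (p q : T3) : pr (p + q) = pr p + pr q := rfl

theorem pr_zero : pr 0 = 0 := rfl

theorem pr_neg (p : T3) : pr (-p) = -pr p := rfl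

theorem pr_io (v : Z3) : pr (io v) = 0 := by
  have : ∀ n : ℤ, ((n : ℝ) : UnitAddCircle) = 0 := fun n =>
    (AddCircle.coe_eq_zero_iff (1 : ℝ)).2 ⟨n, by simp⟩
  exact Prod.ext (this _) (Prod.ext (this _) (this _))

theorem fl_sub_io (q : T3) (v : Z3) : fl (q - io v) = fl q - v :=
  Prod.ext (Int.floor_sub_intCast _ _)
    (Prod.ext (Int.floor_sub_intCast _ _) (Int.floor_sub_intCast _ _))

theorem fl_sg_add_io (θ : K3) (v : Z3) : fl (sg θ + io v) = v := by
  have : ∀ (t : UnitAddCircle) (n : ℤ), ⌊sg1 t + n⌋ = n := fun t n => by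
    rw [Int.floor_add_intCast, Int.floor_eq_zero_iff.2 (sg1_mem t), zero_add]
  exact Prod.ext (this _ _) (Prod.ext (this _ _) (this _ _))

theorem fl_zero : fl 0 = 0 := by simp [fl]

theorem io_zero : io 0 = 0 := by simp [io]

theorem fl_sg (θ : K3) : fl (sg θ) = 0 := by
  simpa [io_zero] using fl_sg_add_io θ 0

theorem sg_add_pr (θ : K3) (q : T3) : sg (θ + pr q) = sg θ + q - io (fl (sg θ + q)) := by
  rw [← sg_pr, pr_add, pr_sg]

instance : IsProbabilityMeasure (volume : Measure K3) :=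
  inferInstanceAs (IsProbabilityMeasure
    ((volume : Measure UnitAddCircle).prod (volume : Measure H46.T2)))

instance : BorelSpace H46.T2 := Prod.borelSpace

instance : BorelSpace K3 := Prod.borelSpace

instance : MeasurableAdd₂ H46.T2 := inferInstance

instance : MeasurableAdd₂ K3 := ContinuousAdd.measurableMul₂

instance : Measure.IsAddHaarMeasure (volume : Measure K3) :=
  Measure.prod.instIsAddHaarMeasure (volume : Measure UnitAddCircle) (volume : Measure H46.T2)

theorem finite_fl (D : T3 → T3) (hD : Continuous D) :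
    (range fun θ : K3 => fl (D (sg θ))).Finite := by
  obtain ⟨R, hR⟩ := ((isCompact_Icc (a := (0 : T3)) (b := 1)).image hD).isBounded.exists_norm_le
  refine (finite_Icc ((⌊-R⌋, ⌊-R⌋, ⌊-R⌋) : Z3) (⌊R⌋, ⌊R⌋, ⌊R⌋)).subset ?_
  rintro _ ⟨θ, rfl⟩
  have h := hR (D (sg θ)) ⟨sg θ, ⟨⟨(sg1_mem _).1, (sg1_mem _).1, (sg1_mem _).1⟩,
    ⟨(sg1_mem _).2.le, (sg1_mem _).2.le, (sg1_mem _).2.le⟩⟩, rfl⟩
  have h1 := abs_le.1 ((norm_fst_le (D (sg θ))).trans h)
  have h0 := (norm_snd_le (D (sg θ))).trans h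
  have h2 := abs_le.1 ((norm_fst_le (D (sg θ)).2).trans h0)
  have h3 := abs_le.1 ((norm_snd_le (D (sg θ)).2).trans h0)
  exact ⟨⟨Int.floor_mono h1.1, Int.floor_mono h2.1, Int.floor_mono h3.1⟩,
    ⟨Int.floor_mono h1.2, Int.floor_mono h2.2, Int.floor_mono h3.2⟩⟩

theorem lintegral_fl (f : Z3 → ℝ≥0∞) (y : T3) : ∫⁻ q, f (fl (y + q)) = ∑' v, f v := by
  rw [lintegral_add_left_eq_self (fun q => f (fl q)) y,
    ← lintegral_map (measurable_of_countable f) meas_fl, lintegral_countable']
  refine tsum_congr fun v => ?_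
  rw [Measure.map_apply meas_fl (measurableSet_singleton v)]
  have : fl ⁻¹' {v} = Ico (v.1 : ℝ) (v.1 + 1) ×ˢ
      (Ico (v.2.1 : ℝ) (v.2.1 + 1) ×ˢ Ico (v.2.2 : ℝ) (v.2.2 + 1)) := by
    ext q
    simp [fl, Prod.ext_iff, Int.floor_eq_iff]
  rw [this, Measure.volume_eq_prod, Measure.prod_prod, Measure.volume_eq_prod, Measure.prod_prod]
  simp

/-- An automorphism of the lattice together with its extensions to space and to the torus. -/
structure Fam where
  Z : AddMonoid.End Z3
  R : AddMonoid.End T3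
  T : AddMonoid.End K3
  pr_R : ∀ q, pr (R q) = T (pr q)
  io_Z : ∀ v, io (Z v) = R (io v)
  cR : Continuous R
  cT : Continuous T
  sZ : Function.Surjective Z
  sT : Function.Surjective T

/-- Composition. -/
def Fam.mul (D E : Fam) : Fam where
  Z := D.Z * E.Z
  R := D.R * E.R
  T := D.T * E.T
  pr_R q := (D.pr_R _).trans (congrArg D.T (E.pr_R q))
  io_Z v := (D.io_Z _).trans (congrArg D.R (E.io_Z v))
  cR := D.cR.comp E.cR
  cT := D.cT.comp E.cT
  sZ := D.sZ.comp E.sZ
  sT := D.sT.comp E.sT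

/-- Powers. -/
def Fam.pow (D : Fam) : ℕ → Fam
  | 0 => ⟨1, 1, 1, fun _ => rfl, fun _ => rfl, continuous_id, continuous_id,
      Function.surjective_id, Function.surjective_id⟩
  | n + 1 => (D.pow n).mul D

theorem Fam.mp (D : Fam) : MeasurePreserving D.T (volume : Measure K3) volume :=
  AddMonoidHom.measurePreserving (f := (D.T : AddMonoid.End K3)) D.cT D.sT rfl

section Shear

variable (m : ℤ) (A : Type) [AddCommGroup A]

theorem U3_neg (v : A × A × A) : U3 m (U3 (-m) v) = v := by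
  refine Prod.ext ?_ (Prod.ext ?_ rfl) <;> simp only [U3] <;> module

theorem L3_neg (v : A × A × A) : L3 m (L3 (-m) v) = v := by
  refine Prod.ext rfl (Prod.ext ?_ ?_) <;> simp only [L3] <;> module

/-- The upper shear. -/
def endU : AddMonoid.End (A × A × A) where
  toFun := U3 m
  map_zero' := by simp [U3]
  map_add' v w := by
    refine Prod.ext ?_ (Prod.ext ?_ rfl) <;> simp only [U3, Prod.fst_add, Prod.snd_add] <;> module

/-- The lower shear. -/
def endL : AddMonoid.End (A × A × A) where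
  toFun := L3 m
  map_zero' := by simp [L3]
  map_add' v w := by
    refine Prod.ext rfl (Prod.ext ?_ ?_) <;> simp only [L3, Prod.fst_add, Prod.snd_add] <;> module

theorem cont_U [TopologicalSpace A] [IsTopologicalAddGroup A] : Continuous (endU m A) := by
  change Continuous (U3 m)
  unfold U3
  fun_prop

theorem cont_L [TopologicalSpace A] [IsTopologicalAddGroup A] : Continuous (endL m A) := by
  change Continuous (L3 m)
  unfold L3
  fun_prop

/-- The upper shear as a family. -/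
noncomputable def famU : Fam where
  Z := endU m ℤ
  R := endU m ℝ
  T := endU m UnitAddCircle
  pr_R _ := rfl
  io_Z v := by
    change io (U3 m v) = U3 m (io v)
    simp [io, U3]
  cR := cont_U m ℝ
  cT := cont_U m _
  sZ v := ⟨_, U3_neg m _ v⟩
  sT v := ⟨_, U3_neg m _ v⟩

/-- The lower shear as a family. -/
noncomputable def famL : Fam where
  Z := endL m ℤ
  R := endL m ℝ
  T := endL m UnitAddCircle
  pr_R _ := rfl
  io_Z v := by
    change io (L3 m v) = L3 m (io v)
    simp [io, L3]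
  cR := cont_L m ℝ
  cT := cont_L m _
  sZ v := ⟨_, L3_neg m _ v⟩
  sT v := ⟨_, L3_neg m _ v⟩

end Shear

variable {G : Type} [Group G] {X : Type} [MeasurableSpace X] [MulAction G X]

theorem meas_sel {A Y : Type} [MeasurableSpace A] [MeasurableSpace Y] (f : Z3 → X → Y)
    (hf : ∀ v, Measurable (f v)) {n : A → Z3} (hn : Measurable n) {p : A → X}
    (hp : Measurable p) : Measurable fun a => f (n a) (p a) :=
  (measurable_from_prod_countable_left (f := fun z : X × Z3 => f z.2 z.1) hf).comp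
    (hp.prodMk hn)

theorem skew_inv {m : Measure X} [IsProbabilityMeasure m] (h : EC G m) (c : Coc G m)
    (g : Z3 → G) {n : K3 → Z3} (hn : Measurable n) {R : K3 → K3}
    (hR : MeasurePreserving R volume volume) (φ : X × K3 → ℝ≥0∞) (hφ : Measurable φ) :
    ∫⁻ ω, φ (g (n ω.2) • ω.1, R ω.2) * c.w (g (n ω.2)) ω.1 ∂(m.prod volume) =
      ∫⁻ ω, φ ω ∂(m.prod volume) := by
  have h1 : Measurable fun ω : X × K3 => g (n ω.2) • ω.1 :=
    meas_sel (fun v x => g v • x) (fun v => h.meas _) (hn.comp measurable_snd) measurable_fst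
  have h2 : Measurable fun ω : X × K3 => c.w (g (n ω.2)) ω.1 :=
    meas_sel (fun v x => c.w (g v) x) (fun v => c.meas _) (hn.comp measurable_snd) measurable_fst
  have h3 : Measurable fun ω : X × K3 => φ (g (n ω.2) • ω.1, R ω.2) * c.w (g (n ω.2)) ω.1 :=
    (hφ.comp (h1.prodMk (hR.measurable.comp measurable_snd))).mul h2
  rw [lintegral_prod_symm' _ h3,
    lintegral_prod_symm' _ hφ, ← hR.lintegral_comp hφ.lintegral_prod_left']
  refine lintegral_congr fun θ => ?_
  exact c.inv (g (n θ)) (fun x => φ (x, R θ)) (hφ.comp measurable_prodMk_right)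

theorem alpha_zero {α : Z3 → G} (hα : ∀ v w, α (v + w) = α v * α w) : α 0 = 1 := by
  have := hα 0 0
  simpa using this

theorem fl_add (θ : K3) (p q : T3) :
    fl (sg θ + (p + q)) = fl (sg (θ + pr q) + p) + fl (sg θ + q) := by
  rw [sg_add_pr, show sg θ + q - io (fl (sg θ + q)) + p = sg θ + (p + q) - io (fl (sg θ + q)) by
    abel, fl_sub_io, sub_add_cancel]

/-- The suspension flow. -/
noncomputable def flow {m : Measure X} [IsProbabilityMeasure m] (h : EC G m) (c : Coc G m)
    (α : Z3 → G) (hα : ∀ v w, α (v + w) = α v * α w) :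
    NSFlow (X × K3) (m.prod volume) where
  τ q ω := (α (fl (sg ω.2 + q)) • ω.1, ω.2 + pr q)
  W q ω := c.w (α (fl (sg ω.2 + q))) ω.1
  meas_τ := (meas_sel (fun v x => α v • x) (fun _ => h.meas _)
      (meas_fl.comp ((meas_sg.comp measurable_snd.snd).add measurable_fst))
      measurable_snd.fst).prodMk (measurable_snd.snd.add (meas_pr.comp measurable_fst))
  meas_W := meas_sel (fun v x => c.w (α v) x) (fun _ => c.meas _)
      (meas_fl.comp ((meas_sg.comp measurable_snd.snd).add measurable_fst)) measurable_snd.fst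
  τ_zero ω := by simp [fl_sg, alpha_zero hα, pr_zero]
  τ_add p q ω := by
    refine Prod.ext ?_ ?_
    · simp only [fl_add, hα, mul_smul]
    · simp only [pr_add]
      abel
  W_add p q ω := by simp only [fl_add, hα, c.mul]
  W_ne_zero q ω := c.ne_zero _ _
  W_ne_top q ω := c.ne_top _ _
  inv q φ hφ := skew_inv h c α (meas_fl.comp (meas_sg.add_const q))
    (measurePreserving_add_right volume (pr q)) φ hφ

theorem fl_fam (D : Fam) (θ : K3) (q : T3) :
    fl (D.R (sg (θ + pr q))) + D.Z (fl (sg θ + q)) =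
      fl (sg (D.T θ) + D.R q) + fl (D.R (sg θ)) := by
  have h1 : sg (D.T θ) = D.R (sg θ) - io (fl (D.R (sg θ))) := by
    rw [← sg_pr, D.pr_R, pr_sg]
  rw [h1, sg_add_pr, map_sub, ← D.io_Z, fl_sub_io, sub_add_cancel, map_add,
    sub_add_eq_add_sub, fl_sub_io, sub_add_cancel]

theorem grp_fam {α : Z3 → G} (hα : ∀ v w, α (v + w) = α v * α w) {D : Fam} {t : G}
    (ht : ∀ v, t * α v = α (D.Z v) * t) (θ : K3) (q : T3) :
    α (fl (D.R (sg (θ + pr q)))) * t * α (fl (sg θ + q)) =
      α (fl (sg (D.T θ) + D.R q)) * (α (fl (D.R (sg θ))) * t) := by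
  rw [mul_assoc, ht, ← mul_assoc, ← mul_assoc, ← hα, ← hα, fl_fam]

theorem exists_bound {m : Measure X} (c : Coc G m) (α : Z3 → G) (D : Fam) (t : G) :
    ∃ C : ℝ≥0, ∀ θ : K3, c.C (α (fl (D.R (sg θ))) * t) ≤ C ∧
      c.C (α (fl (D.R (sg θ))) * t)⁻¹ ≤ C := by
  obtain ⟨C, hC⟩ := ((finite_fl _ D.cR).image
    fun v => max (c.C (α v * t)) (c.C (α v * t)⁻¹)).bddAbove
  exact ⟨C, fun θ => max_le_iff.1 (hC ⟨_, ⟨θ, rfl⟩, rfl⟩)⟩

/-- The symmetry of the suspension flow given by a normalising element. -/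
noncomputable def sym {m : Measure X} [IsProbabilityMeasure m] (h : EC G m) (c : Coc G m)
    (α : Z3 → G) (hα : ∀ v w, α (v + w) = α v * α w) (D : Fam) (t : G)
    (ht : ∀ v, t * α v = α (D.Z v) * t) : C3.Sym (flow h c α hα) (fun q => D.R q) where
  S ω := ((α (fl (D.R (sg ω.2))) * t) • ω.1, D.T ω.2)
  ρ ω := c.w (α (fl (D.R (sg ω.2))) * t) ω.1
  C := (exists_bound c α D t).choose
  meas_S := (meas_sel (fun v x => (α v * t) • x) (fun _ => h.meas _)
      (meas_fl.comp (D.cR.measurable.comp (meas_sg.comp measurable_snd)))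
      measurable_fst).prodMk (D.mp.measurable.comp measurable_snd)
  meas_ρ := meas_sel (fun v x => c.w (α v * t) x) (fun _ => c.meas _)
      (meas_fl.comp (D.cR.measurable.comp (meas_sg.comp measurable_snd))) measurable_fst
  ρ_le ω := (c.le _ _).trans (by exact_mod_cast ((exists_bound c α D t).choose_spec ω.2).1)
  le_ρ ω := (c.one_le _ ω.1).trans (mul_le_mul_left
    (by exact_mod_cast ((exists_bound c α D t).choose_spec ω.2).2) _)
  comm q ω := by
    refine Prod.ext ?_ ?_
    · simp only [flow, ← mul_smul, grp_fam hα ht]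
    · simp only [flow, map_add, D.pr_R]
  cocy q ω := by
    simp only [flow]
    rw [mul_comm, ← c.mul, ← c.mul, grp_fam hα ht]
  inv φ hφ := skew_inv h c (fun v => α v * t)
    (meas_fl.comp (D.cR.measurable.comp meas_sg)) D.mp φ hφ

theorem mul_norm {α : Z3 → G} {D E : Fam} {s t : G} (hs : ∀ v, s * α v = α (D.Z v) * s)
    (ht : ∀ v, t * α v = α (E.Z v) * t) (v : Z3) :
    s * t * α v = α ((D.mul E).Z v) * (s * t) := by
  rw [mul_assoc, ht, ← mul_assoc, hs, mul_assoc]
  rfl

theorem pow_norm {α : Z3 → G} {D : Fam} {t : G} (ht : ∀ v, t * α v = α (D.Z v) * t) (j : ℕ)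
    (v : Z3) : t ^ j * α v = α ((D.pow j).Z v) * t ^ j := by
  induction j generalizing v with
  | zero => simp [Fam.pow]
  | succ j ih =>
    rw [pow_succ]
    exact mul_norm ih ht v

theorem inv_norm {α : Z3 → G} {x : G} {f f' : Z3 → Z3} (hf : ∀ v, f (f' v) = v)
    (hx : ∀ v, x * α v = α (f v) * x) (v : Z3) : x⁻¹ * α v = α (f' v) * x⁻¹ := by
  have := hx (f' v)
  rw [hf] at this
  rw [inv_mul_eq_iff_eq_mul, ← mul_assoc, this, mul_inv_cancel_right]

theorem dg_succ (l : ℝ) (k : ℕ) (q : T3) : dg l k (dg l 1 q) = dg l (k + 1) q := by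
  simp only [dg, pow_succ, pow_zero, one_mul, mul_inv, mul_assoc]

theorem pow_dg {D : Fam} {l : ℝ} {A : T3 ≃ₗ[ℝ] T3} (hA : ∀ q, D.R (A q) = A (dg l 1 q)) (k : ℕ)
    (q : T3) : (D.pow k).R (A q) = A (dg l k q) := by
  induction k generalizing q with
  | zero => simp [Fam.pow, dg]
  | succ k ih =>
    change (D.pow k).R (D.R (A q)) = _
    rw [hA, ih, dg_succ]

theorem hyp {m : Measure X} [IsProbabilityMeasure m] (h : EC G m) (c : Coc G m)
    (α : Z3 → G) (hα : ∀ v w, α (v + w) = α v * α w) {D : Fam} {t : G}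
    (ht : ∀ v, t * α v = α (D.Z v) * t) {l : ℝ} {A : T3 ≃ₗ[ℝ] T3}
    (hA : ∀ q, D.R (A q) = A (dg l 1 q)) : Nonempty (Hyp ((flow h c α hα).rep A) l) := by
  refine hyp_rep A (fun j q => (D.pow j).R q)
    (fun j => sym h c α hα (D.pow j) (t ^ j) (pow_norm ht j)) (pow_dg hA) ?_
  intro Z hZ hinv h0
  set Y : Set X := {x | (x, (0 : K3)) ∈ Z} with hY
  have hYm : MeasurableSet Y := measurable_prodMk_right hZ
  have hZY : ∀ ω : X × K3, ω ∈ Z ↔ ω.1 ∈ Y := by
    intro ω
    rw [← hinv (-sg ω.2) ω]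
    simp [flow, fl_zero, alpha_zero hα, pr_neg, pr_sg, hY]
  have hYα : ∀ v x, α v • x ∈ Y ↔ x ∈ Y := by
    intro v x
    have := hinv (io v) (x, 0)
    simpa [flow, fl_sg_add_io, pr_io, hY] using this
  have hY0 : m Y ≠ 0 := by
    intro hY0
    apply h0
    have : Z = Y ×ˢ univ := by
      ext ω
      simp [hZY]
    rw [this, Measure.prod_prod, hY0, zero_mul]
  rw [← tsum_image_eq_top h t hYm hY0]
  refine tsum_congr fun j => ?_
  set Y' : Set X := (fun x : X => (t ^ j)⁻¹ • x) ⁻¹' Y with hY'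
  have hY'm : MeasurableSet Y' := h.meas _ hYm
  have key := (sym h c α hα (D.pow j) (t ^ j) (pow_norm ht j)).inv
    ((Y' ×ˢ (univ : Set K3)).indicator 1) (measurable_one.indicator (hY'm.prod .univ))
  rw [lintegral_indicator_one (hY'm.prod .univ), Measure.prod_prod, measure_univ, mul_one] at key
  rw [← key, ← lintegral_indicator hZ]
  refine lintegral_congr fun ω => ?_
  have hmem : (sym h c α hα (D.pow j) (t ^ j) (pow_norm ht j)).S ω ∈ Y' ×ˢ (univ : Set K3) ↔
      ω ∈ Z := by
    obtain ⟨v, hv⟩ := (D.pow j).sZ (fl ((D.pow j).R (sg ω.2)))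
    simp only [sym, mem_prod, mem_univ, and_true, hY', mem_preimage]
    rw [← hv, ← pow_norm ht j, mul_smul, inv_smul_smul, hYα, hZY]
  by_cases hω : ω ∈ Z
  · rw [indicator_of_mem hω, indicator_of_mem (hmem.2 hω), Pi.one_apply, one_mul]
  · rw [indicator_of_notMem hω, indicator_of_notMem (fun h' => hω (hmem.1 h')), zero_mul]

theorem alpha_pow {α : Z3 → G} (hα : ∀ v w, α (v + w) = α v * α w) (j : ℕ) :
    α ((j : ℤ), 0) = α (1, 0) ^ j := by
  induction j with
  | zero => rw [pow_zero]; exact alpha_zero hα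
  | succ j ih =>
    rw [pow_succ, ← ih, ← hα]
    simp

theorem lintegral_W {m : Measure X} [IsProbabilityMeasure m] (h : EC G m) (c : Coc G m)
    (α : Z3 → G) (hα : ∀ v w, α (v + w) = α v * α w) :
    ∀ᵐ ω ∂(m.prod (volume : Measure K3)), ∫⁻ q, (flow h c α hα).W q ω = ∞ := by
  have h1 := (measurePreserving_fst (μ := m) (ν := (volume : Measure K3))).quasiMeasurePreserving.ae
    (c.tsum_eq_top h (α (1, 0)))
  filter_upwards [h1] with ω hω
  simp only [flow]
  rw [lintegral_fl (fun v => c.w (α v) ω.1), eq_top_iff, ← hω]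
  simp only [← alpha_pow hα]
  exact ENNReal.tsum_comp_le_tsum_of_injective (f := fun j : ℕ => (((j : ℤ), 0) : Z3))
    (fun a b hab => by simpa using hab) fun v => c.w (α v) ω.1

end Pool.Agent.MP_2b113a_an.H15.S3

namespace Pool.Agent.MP_2b113a_an.H15

open MeasureTheory S3
open Pool.Agent.MP_2b113a_an.H83 (EC)

theorem space3 (hc : C3.CoreStmt) (hf : C3.FrameStmt) : H33.Space3Stmt := by
  intro G _ _ X _ _ μ _ hμ α x y a ha hα hx hy
  obtain ⟨m, hm, h1, h2, hC⟩ := H46.exists_dominated hμ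
  have h : EC G m := H46.EC.of_equiv hμ h1 h2
  obtain ⟨c⟩ := H46.exists_coc h hC
  obtain ⟨l, A, R₂, R₃, hl, hG, e1, e2, e3⟩ := hf a ha
  obtain ⟨ν, hν, h3, h4, h5⟩ := hc (X × K3) (m.prod volume) ((flow h c α hα).rep A) l R₂ R₃ hl hG
    (hyp h c α hα (mul_norm (D := famU a) (E := famL a) hx hy) e1)
    (hyp h c α hα (A := R₂.trans A) (mul_norm (D := famU (-a)) (E := famL (-a))
      (inv_norm (U3_neg a ℤ) hx) (inv_norm (L3_neg a ℤ) hy)) e2)
    (hyp h c α hα (A := R₃.trans A) (mul_norm (D := famL a) (E := famU a) hy hx) e3)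
    ((flow h c α hα).rep_top A (lintegral_W h c α hα))
  have hfst : (m.prod (volume : Measure K3)).map Prod.fst = m := by simp
  refine ⟨ν.map Prod.fst, inferInstance, ?_, ?_, fun v => ?_⟩
  · exact (hfst ▸ h3.map measurable_fst).trans h1
  · exact h2.trans (hfst ▸ h4.map measurable_fst)
  · have hτ : Measurable ((flow h c α hα).τ (io v)) :=
      (flow h c α hα).meas_τ.comp measurable_prodMk_left
    have h6 := h5 (A.symm (io v))
    rw [C3.NSFlow.rep_τ, A.apply_symm_apply] at h6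
    conv_rhs => rw [← h6]
    rw [Measure.map_map (h.meas _) measurable_fst, Measure.map_map measurable_fst hτ]
    congr 1
    funext ω
    simp [flow, fl_sg_add_io]

end Pool.Agent.MP_2b113a_an.H15
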